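import Mathlib

set_option autoImplicit false

namespace Pool.Agent.Results.MP_f3efb8_co.Counterexample

open Finset SimpleGraph

section defs
variable {n m : ℕ} (ends : Fin m → Fin n × Fin n)

/-- Edge `e` of the multigraph has `v` as an end vertex. -/
def Inc (e : Fin m) (v : Fin n) : Prop := (ends e).1 = v ∨ (ends e).2 = v

instance (e : Fin m) (v : Fin n) : Decidable (Inc ends e v) := by unfold Inc; infer_instance

/-- Degree of `v` in the spanning subgraph with edge set `F`. -/
def deg (F : Finset (Fin m)) (v : Fin n) : ℕ := (F.filter fun e => Inc ends e v).card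

/-- The simple graph underlying the spanning subgraph with edge set `F`. -/
def sub (F : Finset (Fin m)) : SimpleGraph (Fin n) :=
  SimpleGraph.fromRel fun a b => ∃ e ∈ F, ends e = (a, b)

/-- More than `κ` vertices, and connected after deleting fewer than `κ` vertices. -/
def KConn (κ : ℕ) : Prop :=
  κ < n ∧ ∀ X : Finset (Fin n), X.card < κ → ((sub ends univ).induce (X : Set (Fin n))ᶜ).Connected

/-- `F` is the edge set of a `t`-factor. -/
def Factor (t : ℕ) (F : Finset (Fin m)) : Prop := ∀ v, deg ends F v = t

/-- `C` is the edge set of a cycle: a connected 2-regular subgraph. -/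
def IsCycle (C : Finset (Fin m)) : Prop :=
  C.Nonempty ∧ (∀ v, deg ends C v = 0 ∨ deg ends C v = 2) ∧
    ∀ u v, deg ends C u ≠ 0 → deg ends C v ≠ 0 → (sub ends C).Reachable u v

lemma deg_eq (F : Finset (Fin m)) (v : Fin n) : deg ends F v =
    (((List.finRange m).filter fun e => decide (Inc ends e v)).map
      fun e => if e ∈ F then 1 else 0).sum := by
  have h : ∀ l : List (Fin m), (l.map fun e => if e ∈ F ∧ Inc ends e v then 1 else 0).sum =
      ((l.filter fun e => decide (Inc ends e v)).map fun e => if e ∈ F then 1 else 0).sum := by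
    intro l
    induction l with
    | nil => rfl
    | cons a l ih => by_cases h : Inc ends a v <;> simp [h, ih]
  rw [← h, ← Fin.sum_univ_def, deg, ← card_filter]
  congr 1
  ext e
  simp

lemma conn_of (G : SimpleGraph (Fin n)) (U : Set (Fin n)) (rk : Fin n → ℕ) (r : Fin n)
    (hr : r ∈ U) (h : ∀ x ∈ U, x = r ∨ ∃ y ∈ U, G.Adj x y ∧ rk y < rk x) :
    (G.induce U).Connected := by
  have key : ∀ m, ∀ x (hx : x ∈ U), rk x < m → (G.induce U).Reachable ⟨r, hr⟩ ⟨x, hx⟩ := by
    intro m
    induction m with
    | zero => intro x _ h; omega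
    | succ m ih =>
      intro x hx hm
      rcases h x hx with rfl | ⟨y, hy, ha, hlt⟩
      · rfl
      · exact (ih y hy (by omega)).trans (Adj.reachable (show (G.induce U).Adj ⟨y, hy⟩ ⟨x, hx⟩
          from ha.symm))
  rw [connected_iff_exists_forall_reachable]
  exact ⟨⟨r, hr⟩, fun x => key _ x.1 x.2 (Nat.lt_succ_self _)⟩

end defs

def EN : ℕ := 0xd74d74d74d74d73d73d73d73d33d33d33d08cc7cb1cb1cb1cb1cb0cb0cb0cb0c70c70c70c48c06beebeebeebeebedbedbedbedbadbadbadb87b46b2bb2bb2bb2bb2ab2ab2ab2aaeaaeaaeaac8a85a68a68a68a68a67a67a67a67a27a27a27a079c59a59a59a59a59a49a49a49a49649649649469058e28e28e28e28e18e18e18e18a18a18a188884481f81f81f81f81e81e81e81e7de7de7de7c778475c75c75c75c75b75b75b75b71b71b71b7066c46996996996996986986986986586586586456045d65d65d65d65d55d55d55d55955955955885435135135135135125125125124d24d24d24c748345045045045044f44f44f44f40f40f40f4063c338d38d38d38d38c38c38c38c34c34c34c3453032ca2ca2ca2ca2c92c92c92c92892892892842432021c21821421020c22011c11811411010c12001c01801401000c0081080040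
def FM : ℕ := 0xced676b3b5d99ced676bb33d99ced676bb33d99ecce76b3b5dfbf0
def PE : ℕ := 0xd0cccbc3bfbeb6b2b1a9a5a49c98978f8b8a827e7d7571706864635b57564e4a49413d3c34302f2723221a161508070605040301000000cccbc3bfbeb6b2b1a9a5a49c98978f8b8a827e7d7571706864635b57564e4a49413d3c34302f2723221a1615080706050403010000d000cbc3bfbeb6b2b1a9a5a49c98978f8b8a827e7d7571706864635b57564e4a49413d3c34302f2723221a1615080706050403010000d4cc00c3bfbeb6b2b1a9a5a49c98978f8b8a827e7d7571706864635b57564e4a49413d3c34302f2723221a1615080706050403010000d0cccb00bfbeb6b2b1a9a5a49c98978f8b8a827e7d7571706864635b57564e4a49413d3c34302f2723221a1615080706050403010000d0cccbc300beb6b2b1a9a5a49c98978f8b8a827e7d7571706864635b57564e4a49413d3c34302f2723221a1615080706050403010000d0cccbc7bf00b6b2b1a9a5a49c98978f8b8a827e7d7571706864635b57564e4a49413d3c34302f2723221a1615080706050403010000d0cccbc3bfbe00b2b1a9a5a49c98978f8b8a827e7d7571706864635b57564e4a49413d3c34302f2723221a1615080706050403010000d0cccbc3bfbeb600b1a9a5a49c98978f8b8a827e7d7571706864635b57564e4a49413d3c34302f2723221a1615080706050403010000d0cccbc3bfbebab200a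9a5a49c98978f8b8a827e7d7571706864635b57564e4a49413d3c34302f2723221a1615080706050403010000d0cccbc3bfbeb6b2b100a5a49c98978f8b8a827e7d7571706864635b57564e4a49413d3c34302f2723221a1615080706050403010000d0cccbc3bfbeb6b2b1a900a49c98978f8b8a827e7d7571706864635b57564e4a49413d3c34302f2723221a1615080706050403010000d0cccbc3bfbeb6b2b1ada5009c98978f8b8a827e7d7571706864635b57564e4a49413d3c34302f2723221a1615080706050403010000d0cccbc3bfbeb6b2b1a9a5a40098978f8b8a827e7d7571706864635b57564e4a49413d3c34302f2723221a1615080706050403010000d0cccbc3bfbeb6b2b1a9a5a49c00978f8b8a827e7d7571706864635b57564e4a49413d3c34302f2723221a1615080706050403010000d0cccbc3bfbeb6b2b1a9a5a4a098008f8b8a827e7d7571706864635b57564e4a49413d3c34302f2723221a1615080706050403010000d0cccbc3bfbeb6b2b1a9a5a49c9897008b8a827e7d7571706864635b57564e4a49413d3c34302f2723221a1615080706050403010000d0cccbc3bfbeb6b2b1a9a5a49c98978f008a827e7d7571706864635b57564e4a49413d3c34302f2723221a1615080706050403010000d0cccbc3bfbeb6b2b1a9a5a49c9897938b00827e7d7571706864635b57564e4a49413d3c34302f2723221a1615080706050403010000d0cccbc3bfbeb6b2b1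a9a5a49c98978f8b8a007e7d7571706864635b57564e4a49413d3c34302f2723221a1615080706050403010000d0cccbc3bfbeb6b2b1a9a5a49c98978f8b8a82007d7571706864635b57564e4a49413d3c34302f2723221a1615080706050403010000d0cccbc3bfbeb6b2b1a9a5a49c98978f8b8a867e007571706864635b57564e4a49413d3c34302f2723221a1615080706050403010000d0cccbc3bfbeb6b2b1a9a5a49c98978f8b8a827e7d0071706864635b57564e4a49413d3c34302f2723221a1615080706050403010000d0cccbc3bfbeb6b2b1a9a5a49c98978f8b8a827e7d7500706864635b57564e4a49413d3c34302f2723221a1615080706050403010000d0cccbc3bfbeb6b2b1a9a5a49c98978f8b8a827e7d7971006864635b57564e4a49413d3c34302f2723221a1615080706050403010000d0cccbc3bfbeb6b2b1a9a5a49c98978f8b8a827e7d7571700064635b57564e4a49413d3c34302f2723221a1615080706050403010000d0cccbc3bfbeb6b2b1a9a5a49c98978f8b8a827e7d7571706800635b57564e4a49413d3c34302f2723221a1615080706050403010000d0cccbc3bfbeb6b2b1a9a5a49c98978f8b8a827e7d7571706c64005b57564e4a49413d3c34302f2723221a1615080706050403010000d0cccbc3bfbeb6b2b1a9a5a49c98978f8b8a827e7d7571706864630057564e4a49413d3c34302f2723221a1615080706050403010000d0cccbc3bfbeb6b2b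1a9a5a49c98978f8b8a827e7d7571706864635b00564e4a49413d3c34302f2723221a1615080706050403010000d0cccbc3bfbeb6b2b1a9a5a49c98978f8b8a827e7d7571706864635f57004e4a49413d3c34302f2723221a1615080706050403010000d0cccbc3bfbeb6b2b1a9a5a49c98978f8b8a827e7d7571706864635b5756004a49413d3c34302f2723221a1615080706050403010000d0cccbc3bfbeb6b2b1a9a5a49c98978f8b8a827e7d7571706864635b57564e0049413d3c34302f2723221a1615080706050403010000d0cccbc3bfbeb6b2b1a9a5a49c98978f8b8a827e7d7571706864635b5756524a00413d3c34302f2723221a1615080706050403010000d0cccbc3bfbeb6b2b1a9a5a49c98978f8b8a827e7d7571706864635b57564e4a49003d3c34302f2723221a1615080706050403010000d0cccbc3bfbeb6b2b1a9a5a49c98978f8b8a827e7d7571706864635b57564e4a4941003c34302f2723221a1615080706050403010000d0cccbc3bfbeb6b2b1a9a5a49c98978f8b8a827e7d7571706864635b57564e4a49453d0034302f2723221a1615080706050403010000d0cccbc3bfbeb6b2b1a9a5a49c98978f8b8a827e7d7571706864635b57564e4a49413d3c00302f2723221a1615080706050403010000d0cccbc3bfbeb6b2b1a9a5a49c98978f8b8a827e7d7571706864635b57564e4a49413d3c34002f2723221a1615080706050403010000d0cccbc3bfbeb6b2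b1a9a5a49c98978f8b8a827e7d7571706864635b57564e4a49413d3c3830002723221a1615080706050403010000d0cccbc3bfbeb6b2b1a9a5a49c98978f8b8a827e7d7571706864635b57564e4a49413d3c34302f0023221a1615080706050403010000d0cccbc3bfbeb6b2b1a9a5a49c98978f8b8a827e7d7571706864635b57564e4a49413d3c34302f2700221a1615080706050403010000d0cccbc3bfbeb6b2b1a9a5a49c98978f8b8a827e7d7571706864635b57564e4a49413d3c34302f2b23001a1615080706050403010000d0cccbc3bfbeb6b2b1a9a5a49c98978f8b8a827e7d7571706864635b57564e4a49413d3c34302f272322001615080706050403010000d0cccbc3bfbeb6b2b1a9a5a49c98978f8b8a827e7d7571706864635b57564e4a49413d3c34302f2723221a0015080706050403010000d0cccbc3bfbeb6b2b1a9a5a49c98978f8b8a827e7d7571706864635b57564e4a49413d3c34302f2723221e1600080706050403010000d0cdcbc3c0beb6b2b1a9a6a49c98978f8b8a827f7d7571706864635b57564e4b49413d3c34302f2723221a1615000706050403010000d4cccdc3bfbeb6b3b1a9a5a49c99978f8b8a827e7d7572706864635b57564e4a49413e3c34302f2723221a1615080006050403010000d0cccbc7bfc0bab2b3a9a5a49c98978f8c8a827e7d7571706865635b57564e4a49413d3c34312f2723221a1615080700050403010000d0cccbc3bfbeb6b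2b1ada5a6a09899938b8c827e7d7571706864635b58564e4a49413d3c34302f2724221a1615080706000403010000d0cccbc3bfbeb6b2b1a9a5a49c98978f8b8a867e7f7971726c64655f57584e4a49413d3c34302f2723221a1715080706050003010000d0cccbc3bfbeb6b2b1a9a5a49c98978f8b8a827e7d7571706864635b5756524a4b453d3e3830312b23241e1617080706050400010000d0cccbc3bfbeb6b2b1a9a5a49c98978f8b8a827e7d7571706864635b57564e4a49413d3c34302f2723221a1615080706050403000000d0cccbc3bfbeb6b2b1a9a5a49c98978f8b8a827e7d7571706864635b57564e4a49413d3c34302f2723221a1615080706050403010000d0cccbc3bfbeb6b2b1a9a5a49c98978f8b8a827e7d7571706864635b57564e4a49413d3c34302f2723221a16150e0d0c0b0a09020000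
def RK : ℕ := 0x322322322322322322322322322322322322322322322111111110022322322322322322322322322322322322322322322111111110302322322322322322322322322322322322322322322111111110320322322322322322322322322322322322322322322111111110322022322322322322322322322322322322322322322111111110322302322322322322322322322322322322322322322111111110322320322322322322322322322322322322322322322111111110322322022322322322322322322322322322322322322111111110322322302322322322322322322322322322322322322111111110322322320322322322322322322322322322322322322111111110322322322022322322322322322322322322322322322111111110322322322302322322322322322322322322322322322111111110322322322320322322322322322322322322322322322111111110322322322322022322322322322322322322322322322111111110322322322322302322322322322322322322322322322111111110322322322322320322322322322322322322322322322111111110322322322322322022322322322322322322322322322111111110322322322322322302322322322322322322322322322111111110322322322322322320322322322322322322322322322111111110322322322322322322022322322322322322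32232232211111111032232232232232232230232232232232232232232232211111111032232232232232232232032232232232232232232232211111111032232232232232232232202232232232232232232232211111111032232232232232232232230232232232232232232232211111111032232232232232232232232032232232232232232232211111111032232232232232232232232202232232232232232232211111111032232232232232232232232230232232232232232232211111111032232232232232232232232232032232232232232232211111111032232232232232232232232232202232232232232232211111111032232232232232232232232232230232232232232232211111111032232232232232232232232232232032232232232232211111111032232232232232232232232232232202232232232232211111111032232232232232232232232232232230232232232232211111111032232232232232232232232232232232032232232232211111111032232232232232232232232232232232202232232232211111111032232232232232232232232232232232230232232232211111111032232232232232232232232232232232232032232232211111111032232232232232232232232232232232232202232232211111111032232232232232232232232232232232232230232232211111111032232232232232232232232232232232232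2320322322111111110322322322322322322322322322322322322322022322111111110322322322322322322322322322322322322322302322111111110322322322322322322322322322322322322322320322111111110322322322322322322322322322322322322322322022111111110322322322322322322322322322322322322322322302111111110322322322322322322322322322322322322322322320111111110332332322332322322332322322322332322322322322011111110323322332322332322322332322322322332322322322101111110322323323322322332322322332322322322332322322110111110322322322323323323322322322332322322322332322111011110322322322322322322323323323323322322322322332111101110322322322322322322322322322322323323323323323111110110322322322322322322322322322322322322322322322111111010322322322322322322322322322322322322322322322111111100322322322322322322322322322322322322322322322111111100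

def ends (e : Fin 216) : Fin 54 × Fin 54 :=
  (Fin.ofNat 54 ((EN >>> (12 * e.val)) % 64), Fin.ofNat 54 ((EN >>> (12 * e.val + 6)) % 64))

def pe (v : ℕ) (x : Fin 54) : Fin 216 := Fin.ofNat 216 ((PE >>> (8 * (54 * v + x.val))) % 256)
def rk (v : ℕ) (x : Fin 54) : ℕ := (RK >>> (4 * (54 * v + x.val))) % 16
def root (v : ℕ) : Fin 54 := if v = 0 then 1 else 0

lemma tree : ∀ v < 55, ∀ x : Fin 54, x.val ≠ v → x = root v ∨
    ((ends (pe v x)).1 = x ∧ (ends (pe v x)).2.val ≠ v ∧ rk v (ends (pe v x)).2 < rk v x) ∨
    ((ends (pe v x)).2 = x ∧ (ends (pe v x)).1.val ≠ v ∧ rk v (ends (pe v x)).1 < rk v x) := by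
  decide +kernel

lemma conn (v : ℕ) (hv : v < 55) (U : Set (Fin 54)) (hU : ∀ x, x ∈ U ↔ x.val ≠ v) :
    ((sub ends univ).induce U).Connected := by
  refine conn_of _ U (rk v) (root v) ((hU _).2 ?_) fun x hx => ?_
  · unfold root; split_ifs with h
    · subst h; decide
    · exact fun h' => h h'.symm
  · rcases tree v hv x ((hU x).1 hx) with h | ⟨h1, h2, h3⟩ | ⟨h1, h2, h3⟩
    · exact Or.inl h
    · refine Or.inr ⟨_, (hU _).2 h2, (fromRel_adj _ _ _).2 ⟨fun h => ?_,
        Or.inl ⟨pe v x, mem_univ _, Prod.ext h1 rfl⟩⟩, h3⟩
      rw [← h] at h3; exact lt_irrefl _ h3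
    · refine Or.inr ⟨_, (hU _).2 h2, (fromRel_adj _ _ _).2 ⟨fun h => ?_,
        Or.inr ⟨pe v x, mem_univ _, Prod.ext rfl h1⟩⟩, h3⟩
      rw [← h] at h3; exact lt_irrefl _ h3

lemma kconn : KConn ends 2 := by
  refine ⟨by norm_num, fun X hX => ?_⟩
  rcases X.eq_empty_or_nonempty with rfl | ⟨v, hv⟩
  · exact conn 54 (by norm_num) _ fun x => by have := x.2; simp; omega
  · have : X = {v} := eq_singleton_iff_unique_mem.2
      ⟨hv, fun x hx => card_le_one.1 (by omega) x hx v hv⟩
    subst this
    exact conn v (by have := v.2; omega) _ fun x => by simp [Fin.ext_iff]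

def L (v : Fin 54) : List (Fin 216) := (List.finRange 216).filter fun e => decide (Inc ends e v)

lemma comp {o1 o2 a1 a2 a3 b1 b2 b3 b4 c1 c2 c3 c4 : ℕ}
    (h1 : o1 + (a1 + (a2 + (a3 + (b1 + (b2 + (b3 + (b4 + 0))))))) = 5)
    (h2 : o2 + (a1 + (a2 + (a3 + (c1 + (c2 + (c3 + (c4 + 0))))))) = 5)
    (h3 : b1 + (b2 + (b3 + (b4 + (c1 + (c2 + (c3 + (c4 + 0))))))) = 5)
    (h4 : o1 ≤ 1) (h5 : o2 ≤ 1) : o1 + o2 = 1 := by omega

lemma noF (x : Fin 216 → ℕ) (hb : ∀ e, x e ≤ 1) (hc : ∀ v, ((L v).map x).sum = 5) :
    x 0 + x 1 + x 2 = 0 := by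
  have c0 := hc 0
  rw [show L 0 = [0, 1, 3, 4, 5, 6, 7, 8] by decide +kernel] at c0
  simp only [List.map_cons, List.sum_cons, List.map_nil, List.sum_nil] at c0
  have c1 := hc 1
  rw [show L 1 = [0, 2, 9, 10, 11, 12, 13, 14] by decide +kernel] at c1
  simp only [List.map_cons, List.sum_cons, List.map_nil, List.sum_nil] at c1
  have c2 := hc 2
  rw [show L 2 = [1, 2, 15, 16, 17, 18, 19, 20] by decide +kernel] at c2
  simp only [List.map_cons, List.sum_cons, List.map_nil, List.sum_nil] at c2
  have c3 := hc 3
  rw [show L 3 = [3, 9, 15, 21, 34, 47, 60, 73] by decide +kernel] at c3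
  simp only [List.map_cons, List.sum_cons, List.map_nil, List.sum_nil] at c3
  have c4 := hc 4
  rw [show L 4 = [4, 10, 16, 22, 86, 99, 112, 125] by decide +kernel] at c4
  simp only [List.map_cons, List.sum_cons, List.map_nil, List.sum_nil] at c4
  have c5 := hc 5
  rw [show L 5 = [5, 11, 17, 35, 87, 138, 151, 164] by decide +kernel] at c5
  simp only [List.map_cons, List.sum_cons, List.map_nil, List.sum_nil] at c5
  have c6 := hc 6
  rw [show L 6 = [6, 12, 18, 48, 100, 139, 177, 190] by decide +kernel] at c6
  simp only [List.map_cons, List.sum_cons, List.map_nil, List.sum_nil] at c6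
  have c7 := hc 7
  rw [show L 7 = [7, 13, 19, 61, 113, 152, 178, 203] by decide +kernel] at c7
  simp only [List.map_cons, List.sum_cons, List.map_nil, List.sum_nil] at c7
  have c8 := hc 8
  rw [show L 8 = [8, 14, 20, 74, 126, 165, 191, 204] by decide +kernel] at c8
  simp only [List.map_cons, List.sum_cons, List.map_nil, List.sum_nil] at c8
  have c9 := hc 9
  rw [show L 9 = [21, 23, 24, 25, 26, 27, 28, 29] by decide +kernel] at c9
  simp only [List.map_cons, List.sum_cons, List.map_nil, List.sum_nil] at c9
  have c10 := hc 10
  rw [show L 10 = [22, 23, 24, 25, 30, 31, 32, 33] by decide +kernel] at c10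
  simp only [List.map_cons, List.sum_cons, List.map_nil, List.sum_nil] at c10
  have c11 := hc 11
  rw [show L 11 = [26, 27, 28, 29, 30, 31, 32, 33] by decide +kernel] at c11
  simp only [List.map_cons, List.sum_cons, List.map_nil, List.sum_nil] at c11
  have c12 := hc 12
  rw [show L 12 = [34, 36, 37, 38, 39, 40, 41, 42] by decide +kernel] at c12
  simp only [List.map_cons, List.sum_cons, List.map_nil, List.sum_nil] at c12
  have c13 := hc 13
  rw [show L 13 = [35, 36, 37, 38, 43, 44, 45, 46] by decide +kernel] at c13
  simp only [List.map_cons, List.sum_cons, List.map_nil, List.sum_nil] at c13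
  have c14 := hc 14
  rw [show L 14 = [39, 40, 41, 42, 43, 44, 45, 46] by decide +kernel] at c14
  simp only [List.map_cons, List.sum_cons, List.map_nil, List.sum_nil] at c14
  have c15 := hc 15
  rw [show L 15 = [47, 49, 50, 51, 52, 53, 54, 55] by decide +kernel] at c15
  simp only [List.map_cons, List.sum_cons, List.map_nil, List.sum_nil] at c15
  have c16 := hc 16
  rw [show L 16 = [48, 49, 50, 51, 56, 57, 58, 59] by decide +kernel] at c16
  simp only [List.map_cons, List.sum_cons, List.map_nil, List.sum_nil] at c16
  have c17 := hc 17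
  rw [show L 17 = [52, 53, 54, 55, 56, 57, 58, 59] by decide +kernel] at c17
  simp only [List.map_cons, List.sum_cons, List.map_nil, List.sum_nil] at c17
  have c18 := hc 18
  rw [show L 18 = [60, 62, 63, 64, 65, 66, 67, 68] by decide +kernel] at c18
  simp only [List.map_cons, List.sum_cons, List.map_nil, List.sum_nil] at c18
  have c19 := hc 19
  rw [show L 19 = [61, 62, 63, 64, 69, 70, 71, 72] by decide +kernel] at c19
  simp only [List.map_cons, List.sum_cons, List.map_nil, List.sum_nil] at c19
  have c20 := hc 20
  rw [show L 20 = [65, 66, 67, 68, 69, 70, 71, 72] by decide +kernel] at c20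
  simp only [List.map_cons, List.sum_cons, List.map_nil, List.sum_nil] at c20
  have c21 := hc 21
  rw [show L 21 = [73, 75, 76, 77, 78, 79, 80, 81] by decide +kernel] at c21
  simp only [List.map_cons, List.sum_cons, List.map_nil, List.sum_nil] at c21
  have c22 := hc 22
  rw [show L 22 = [74, 75, 76, 77, 82, 83, 84, 85] by decide +kernel] at c22
  simp only [List.map_cons, List.sum_cons, List.map_nil, List.sum_nil] at c22
  have c23 := hc 23
  rw [show L 23 = [78, 79, 80, 81, 82, 83, 84, 85] by decide +kernel] at c23
  simp only [List.map_cons, List.sum_cons, List.map_nil, List.sum_nil] at c23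
  have c24 := hc 24
  rw [show L 24 = [86, 88, 89, 90, 91, 92, 93, 94] by decide +kernel] at c24
  simp only [List.map_cons, List.sum_cons, List.map_nil, List.sum_nil] at c24
  have c25 := hc 25
  rw [show L 25 = [87, 88, 89, 90, 95, 96, 97, 98] by decide +kernel] at c25
  simp only [List.map_cons, List.sum_cons, List.map_nil, List.sum_nil] at c25
  have c26 := hc 26
  rw [show L 26 = [91, 92, 93, 94, 95, 96, 97, 98] by decide +kernel] at c26
  simp only [List.map_cons, List.sum_cons, List.map_nil, List.sum_nil] at c26
  have c27 := hc 27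
  rw [show L 27 = [99, 101, 102, 103, 104, 105, 106, 107] by decide +kernel] at c27
  simp only [List.map_cons, List.sum_cons, List.map_nil, List.sum_nil] at c27
  have c28 := hc 28
  rw [show L 28 = [100, 101, 102, 103, 108, 109, 110, 111] by decide +kernel] at c28
  simp only [List.map_cons, List.sum_cons, List.map_nil, List.sum_nil] at c28
  have c29 := hc 29
  rw [show L 29 = [104, 105, 106, 107, 108, 109, 110, 111] by decide +kernel] at c29
  simp only [List.map_cons, List.sum_cons, List.map_nil, List.sum_nil] at c29
  have c30 := hc 30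
  rw [show L 30 = [112, 114, 115, 116, 117, 118, 119, 120] by decide +kernel] at c30
  simp only [List.map_cons, List.sum_cons, List.map_nil, List.sum_nil] at c30
  have c31 := hc 31
  rw [show L 31 = [113, 114, 115, 116, 121, 122, 123, 124] by decide +kernel] at c31
  simp only [List.map_cons, List.sum_cons, List.map_nil, List.sum_nil] at c31
  have c32 := hc 32
  rw [show L 32 = [117, 118, 119, 120, 121, 122, 123, 124] by decide +kernel] at c32
  simp only [List.map_cons, List.sum_cons, List.map_nil, List.sum_nil] at c32
  have c33 := hc 33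
  rw [show L 33 = [125, 127, 128, 129, 130, 131, 132, 133] by decide +kernel] at c33
  simp only [List.map_cons, List.sum_cons, List.map_nil, List.sum_nil] at c33
  have c34 := hc 34
  rw [show L 34 = [126, 127, 128, 129, 134, 135, 136, 137] by decide +kernel] at c34
  simp only [List.map_cons, List.sum_cons, List.map_nil, List.sum_nil] at c34
  have c35 := hc 35
  rw [show L 35 = [130, 131, 132, 133, 134, 135, 136, 137] by decide +kernel] at c35
  simp only [List.map_cons, List.sum_cons, List.map_nil, List.sum_nil] at c35
  have c36 := hc 36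
  rw [show L 36 = [138, 140, 141, 142, 143, 144, 145, 146] by decide +kernel] at c36
  simp only [List.map_cons, List.sum_cons, List.map_nil, List.sum_nil] at c36
  have c37 := hc 37
  rw [show L 37 = [139, 140, 141, 142, 147, 148, 149, 150] by decide +kernel] at c37
  simp only [List.map_cons, List.sum_cons, List.map_nil, List.sum_nil] at c37
  have c38 := hc 38
  rw [show L 38 = [143, 144, 145, 146, 147, 148, 149, 150] by decide +kernel] at c38
  simp only [List.map_cons, List.sum_cons, List.map_nil, List.sum_nil] at c38
  have c39 := hc 39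
  rw [show L 39 = [151, 153, 154, 155, 156, 157, 158, 159] by decide +kernel] at c39
  simp only [List.map_cons, List.sum_cons, List.map_nil, List.sum_nil] at c39
  have c40 := hc 40
  rw [show L 40 = [152, 153, 154, 155, 160, 161, 162, 163] by decide +kernel] at c40
  simp only [List.map_cons, List.sum_cons, List.map_nil, List.sum_nil] at c40
  have c41 := hc 41
  rw [show L 41 = [156, 157, 158, 159, 160, 161, 162, 163] by decide +kernel] at c41
  simp only [List.map_cons, List.sum_cons, List.map_nil, List.sum_nil] at c41
  have c42 := hc 42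
  rw [show L 42 = [164, 166, 167, 168, 169, 170, 171, 172] by decide +kernel] at c42
  simp only [List.map_cons, List.sum_cons, List.map_nil, List.sum_nil] at c42
  have c43 := hc 43
  rw [show L 43 = [165, 166, 167, 168, 173, 174, 175, 176] by decide +kernel] at c43
  simp only [List.map_cons, List.sum_cons, List.map_nil, List.sum_nil] at c43
  have c44 := hc 44
  rw [show L 44 = [169, 170, 171, 172, 173, 174, 175, 176] by decide +kernel] at c44
  simp only [List.map_cons, List.sum_cons, List.map_nil, List.sum_nil] at c44
  have c45 := hc 45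
  rw [show L 45 = [177, 179, 180, 181, 182, 183, 184, 185] by decide +kernel] at c45
  simp only [List.map_cons, List.sum_cons, List.map_nil, List.sum_nil] at c45
  have c46 := hc 46
  rw [show L 46 = [178, 179, 180, 181, 186, 187, 188, 189] by decide +kernel] at c46
  simp only [List.map_cons, List.sum_cons, List.map_nil, List.sum_nil] at c46
  have c47 := hc 47
  rw [show L 47 = [182, 183, 184, 185, 186, 187, 188, 189] by decide +kernel] at c47
  simp only [List.map_cons, List.sum_cons, List.map_nil, List.sum_nil] at c47
  have c48 := hc 48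
  rw [show L 48 = [190, 192, 193, 194, 195, 196, 197, 198] by decide +kernel] at c48
  simp only [List.map_cons, List.sum_cons, List.map_nil, List.sum_nil] at c48
  have c49 := hc 49
  rw [show L 49 = [191, 192, 193, 194, 199, 200, 201, 202] by decide +kernel] at c49
  simp only [List.map_cons, List.sum_cons, List.map_nil, List.sum_nil] at c49
  have c50 := hc 50
  rw [show L 50 = [195, 196, 197, 198, 199, 200, 201, 202] by decide +kernel] at c50
  simp only [List.map_cons, List.sum_cons, List.map_nil, List.sum_nil] at c50
  have c51 := hc 51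
  rw [show L 51 = [203, 205, 206, 207, 208, 209, 210, 211] by decide +kernel] at c51
  simp only [List.map_cons, List.sum_cons, List.map_nil, List.sum_nil] at c51
  have c52 := hc 52
  rw [show L 52 = [204, 205, 206, 207, 212, 213, 214, 215] by decide +kernel] at c52
  simp only [List.map_cons, List.sum_cons, List.map_nil, List.sum_nil] at c52
  have c53 := hc 53
  rw [show L 53 = [208, 209, 210, 211, 212, 213, 214, 215] by decide +kernel] at c53
  simp only [List.map_cons, List.sum_cons, List.map_nil, List.sum_nil] at c53
  have k0 := comp c9 c10 c11 (hb _) (hb _)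
  have k1 := comp c12 c13 c14 (hb _) (hb _)
  have k2 := comp c15 c16 c17 (hb _) (hb _)
  have k3 := comp c18 c19 c20 (hb _) (hb _)
  have k4 := comp c21 c22 c23 (hb _) (hb _)
  have k5 := comp c24 c25 c26 (hb _) (hb _)
  have k6 := comp c27 c28 c29 (hb _) (hb _)
  have k7 := comp c30 c31 c32 (hb _) (hb _)
  have k8 := comp c33 c34 c35 (hb _) (hb _)
  have k9 := comp c36 c37 c38 (hb _) (hb _)
  have k10 := comp c39 c40 c41 (hb _) (hb _)
  have k11 := comp c42 c43 c44 (hb _) (hb _)
  have k12 := comp c45 c46 c47 (hb _) (hb _)
  have k13 := comp c48 c49 c50 (hb _) (hb _)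
  have k14 := comp c51 c52 c53 (hb _) (hb _)
  linarith only [c0, c1, c2, c3, c4, c5, c6, c7, c8, k0, k1, k2, k3, k4, k5, k6, k7, k8, k9, k10, k11, k12, k13, k14]

theorem result : ¬ ∀ (r t n m : ℕ) (ends : Fin m → Fin n × Fin n),
    (∀ e, (ends e).1 ≠ (ends e).2) → 0 < r → 0 < t → (1 : ℚ) / 2 ≤ (t : ℚ) / r →
    (t : ℚ) / r ≤ 1 → KConn ends 2 → Factor ends r univ → (∃ F, Factor ends t F) →
    ∀ O : Finset (Finset (Fin m)), (∀ C ∈ O, IsCycle ends C ∧ 3 ≤ C.card) →
    (∀ C ∈ O, ∀ D ∈ O, C ≠ D → Disjoint C D) →
    ∃ F, Factor ends t F ∧ ∀ C ∈ O, (F ∩ C).Nonempty := by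
  intro h
  obtain ⟨F, hF, hC⟩ := h 8 5 54 216 ends (by decide +kernel) (by norm_num) (by norm_num)
    (by norm_num) (by norm_num) kconn (by unfold Factor; decide +kernel)
    ⟨univ.filter fun e => FM.testBit e.val, by unfold Factor; decide +kernel⟩ {{0, 1, 2}}
    (by
      intro C hC
      rw [mem_singleton] at hC
      subst hC
      refine ⟨⟨by simp, by decide +kernel, fun u v hu hv => ?_⟩, by decide +kernel⟩
      have : ∀ u v : Fin 54, deg ends {0, 1, 2} u ≠ 0 → deg ends {0, 1, 2} v ≠ 0 → u = v ∨
          (u ≠ v ∧ ((∃ e ∈ ({0, 1, 2} : Finset (Fin 216)), ends e = (u, v)) ∨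
            ∃ e ∈ ({0, 1, 2} : Finset (Fin 216)), ends e = (v, u))) := by decide +kernel
      rcases this u v hu hv with rfl | h
      · rfl
      · exact Adj.reachable ((fromRel_adj _ _ _).2 h))
    (by simp)
  have h0 := noF (fun e => if e ∈ F then 1 else 0) (fun e => by split_ifs <;> omega)
    fun v => (deg_eq ends F v).symm.trans (hF v)
  obtain ⟨e, he⟩ := hC _ (mem_singleton_self _)
  simp only [mem_inter, mem_insert, mem_singleton] at he
  obtain ⟨h1, rfl | rfl | rfl⟩ := he <;> simp [h1] at h0

end Pool.Agent.Results.MP_f3efb8_co.Counterexample
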